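import Pool.Agent.LeoT.Stmts

/-! LEOT, module TAM: the exponents of the different at tame primes. -/

set_option autoImplicit false

namespace Pool.Agent.LeoT.H83

open NumberField IsDedekindDomain Module Pool.Agent.LeoT

open scoped nonZeroDivisors

/-- TAM: the exponents of the different at tame primes. -/
theorem tam : TamStmt := by
  intro k K _ _ _ _ _ p P Q hPt hcop hPQ hi
  have hpm : p.asIdeal.IsMaximal := p.isMaximal
  let iF : Field (𝓞 k ⧸ p.asIdeal) := Ideal.Quotient.field p.asIdeal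
  let iP : Algebra (𝓞 k ⧸ p.asIdeal) (𝓞 K ⧸ P) := Ideal.Quotient.algebraQuotientOfLEComap (by
    rw [← Ideal.map_le_iff_le_comap, ← hPQ]
    exact Ideal.mul_le_left)
  let iQ : Algebra (𝓞 k ⧸ p.asIdeal) (𝓞 K ⧸ Q) := Ideal.Quotient.algebraQuotientOfLEComap (by
    rw [← Ideal.map_le_iff_le_comap, ← hPQ]
    exact Ideal.mul_le_right)
  have tP : IsScalarTower (𝓞 k) (𝓞 k ⧸ p.asIdeal) (𝓞 K ⧸ P) := .of_algebraMap_eq' rfl
  have tQ : IsScalarTower (𝓞 k) (𝓞 k ⧸ p.asIdeal) (𝓞 K ⧸ Q) := .of_algebraMap_eq' rfl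
  have fP : Module.Finite (𝓞 k ⧸ p.asIdeal) (𝓞 K ⧸ P) :=
    Module.Finite.of_restrictScalars_finite (𝓞 k) (𝓞 k ⧸ p.asIdeal) (𝓞 K ⧸ P)
  have fQ : Module.Finite (𝓞 k ⧸ p.asIdeal) (𝓞 K ⧸ Q) :=
    Module.Finite.of_restrictScalars_finite (𝓞 k) (𝓞 k ⧸ p.asIdeal) (𝓞 K ⧸ Q)
  let e : (𝓞 K ⧸ p.asIdeal.map (algebraMap (𝓞 k) (𝓞 K))) ≃ₐ[𝓞 k ⧸ p.asIdeal]
      ((𝓞 K ⧸ P) × (𝓞 K ⧸ Q)) :=
    { __ := (Ideal.quotEquivOfEq hPQ.symm).trans (Ideal.quotientMulEquivQuotientProd P Q hcop),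
      commutes' := Quotient.ind fun _ ↦ rfl }
  have hfr : finrank (𝓞 k ⧸ p.asIdeal) (𝓞 K ⧸ p.asIdeal.map (algebraMap (𝓞 k) (𝓞 K))) =
      finrank k K := Ideal.finrank_quotient_map p.asIdeal k K
  have hfr2 : finrank (𝓞 k ⧸ p.asIdeal) (𝓞 K ⧸ P) + finrank (𝓞 k ⧸ p.asIdeal) (𝓞 K ⧸ Q) =
      finrank k K := by
    rw [← hfr, e.toLinearEquiv.finrank_eq, Module.finrank_prod]
  have hnt : Nontrivial (𝓞 K ⧸ P) := Ideal.Quotient.nontrivial_iff.2 hPt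
  have hpos : 0 < finrank (𝓞 k ⧸ p.asIdeal) (𝓞 K ⧸ P) := Module.finrank_pos
  obtain ⟨y, hy⟩ := Ideal.Quotient.mk_surjective (e.symm (1, 0))
  refine not_dvd_differentIdeal_of_intTrace_not_mem (𝓞 k) P Q hPQ y ?_ ?_
  · have := congrArg (fun z => (e z).2) hy
    simp at this
    simpa [e, Ideal.Quotient.eq_zero_iff_mem] using this
  · rw [← Ideal.Quotient.eq_zero_iff_mem, ← Algebra.trace_quotient_eq_of_isDedekindDomain,
      hy, Algebra.trace_eq_of_algEquiv, Algebra.trace_prod_apply]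
    have h1 : Algebra.trace (𝓞 k ⧸ p.asIdeal) (𝓞 K ⧸ P) 1 =
        ((finrank (𝓞 k ⧸ p.asIdeal) (𝓞 K ⧸ P) : ℕ) : 𝓞 k ⧸ p.asIdeal) := by
      have := Algebra.trace_algebraMap (S := 𝓞 K ⧸ P) (1 : 𝓞 k ⧸ p.asIdeal)
      rw [map_one] at this
      rw [this, nsmul_eq_mul, mul_one]
    rw [h1, map_zero, add_zero]
    have h2 := hi (finrank (𝓞 k ⧸ p.asIdeal) (𝓞 K ⧸ P)) hpos (by omega)
    intro h3
    apply h2
    rw [← Ideal.Quotient.eq_zero_iff_mem, map_natCast]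
    exact h3

end Pool.Agent.LeoT.H83
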